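import Pool.Agent.Y753.SHR.R19
import Pool.Agent.Y753.SHR.Star
import Pool.Agent.Y901.SHR.Diag
import Pool.Agent.V11128.SHL.Dense
import Pool.Agent.V11128.SHL.Land

/-!
# The local landscape of log |ζ| under the moment measures is Gaussian

Let `δ(T) → 0` and `δ(T) log T → ∞`. Choose `t ∈ [0, T]` with density proportional to
`|ζ(1/2 + δ + it)|^β`, `0 < β ≤ 4`. Then for every finite set of shifts `a_1, ..., a_n` the vector of
the differences `log |ζ(1/2 + δ + i(t + a_j δ))| - log |ζ(1/2 + δ + it)|` converges in law to the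
normal law with means `-(β/4) Λ(a_j)` and covariances `(Λ(a_i) + Λ(a_j) - Λ(a_i - a_j))/4`,
`Λ(x) = log (1 + (x/2)²)`. For all `β ∈ B`, `B` countable (for instance all the integers `k ≥ 1`), the same
holds off a set of measure `o(T δ^(4 + 4c))` on which `|ζ| > δ^(-2-c)`, for `β ≤ 4` and `β ≥ 4 + 4c`.

Source: the theorems `land_full` and `land_small` of the starting library (`Pool.Agent.Y753.SHR`), which are
conditional there on the two statements `S_DENSE` and `S_LAND` on Laplace transforms; these two statements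
are proved in `Pool.Agent.V11128.SHL`.
-/

set_option autoImplicit false

namespace Pool.Agent.Results.MP_112ba8_nt.GaussianLandscape

open Filter MeasureTheory Topology

/-- The coefficient `s (s + 1) ⋯ (s + m - 1) / m!` of `x^m` in `(1 - x)^(-s)`. -/
noncomputable def ds (s : ℝ) (m : ℕ) : ℝ := ∏ i ∈ Finset.range m, (s + i) / ((i : ℝ) + 1)

/-- The arithmetic factor `a(s) = ∏_p (1 - 1/p)^(s²) ∑_m ds(m)² p^(-m)`. -/
noncomputable def ak (s : ℝ) : ℝ :=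
  ∏' p : Nat.Primes, ((1 - 1 / (p : ℝ)) ^ (s ^ 2) * ∑' m : ℕ, ds s m ^ 2 * (1 / (p : ℝ)) ^ m)

/-- `|ζ(1/2 + δ + i(t + aδ))|`. -/
noncomputable def Z (δ a t : ℝ) : ℝ :=
  ‖riemannZeta (1 / 2 + δ + ((t + a * δ : ℝ) : ℂ) * Complex.I)‖

/-- The differences `log |ζ(1/2 + δ + i(t + a_j δ))| - log |ζ(1/2 + δ + it)|`. -/
noncomputable def Y {n : ℕ} (δ : ℝ) (a : Fin n → ℝ) (t : ℝ) : Fin n → ℝ :=
  fun j => Real.log (Z δ (a j) t) - Real.log (Z δ 0 t)

/-- `Λ(x) = log (1 + (x/2)²)`. -/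
noncomputable def Lam (x : ℝ) : ℝ := Real.log (1 + (x / 2) ^ 2)

/-- The means of the limit law. -/
noncomputable def mean {n : ℕ} (β : ℝ) (a : Fin n → ℝ) (j : Fin n) : ℝ := -(β / 4) * Lam (a j)

/-- The covariances of the limit law. -/
noncomputable def cov {n : ℕ} (a : Fin n → ℝ) (i j : Fin n) : ℝ :=
  (Lam (a i) + Lam (a j) - Lam (a i - a j)) / 4

/-- `ρ` is the normal law on `ℝ^n` with mean `m` and covariance matrix `C`: each linear form
`∑ c_j y_j` has the normal law with mean `∑ c_j m_j` and variance `∑ c_i c_j C_ij ≥ 0`. -/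
def IsNormal {n : ℕ} (m : Fin n → ℝ) (C : Fin n → Fin n → ℝ) (ρ : ProbabilityMeasure (Fin n → ℝ)) :
    Prop :=
  ∀ c : Fin n → ℝ, 0 ≤ ∑ i, ∑ j, c i * c j * C i j ∧
    (ρ : Measure (Fin n → ℝ)).map (fun y => ∑ j, c j * y j) =
      ProbabilityTheory.gaussianReal (∑ j, c j * m j) (∑ i, ∑ j, c i * c j * C i j).toNNReal

/-- Let `δ(T) → 0` and `δ(T) log T → ∞`. First part: for `0 < β ≤ 4` and all shifts `a_1, ..., a_n`, with the
normal law `ρ` of mean `-(β/4) Λ(a_j)` and covariance `(Λ(a_i) + Λ(a_j) - Λ(a_i - a_j))/4`, for all bounded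
continuous `F`

`(2δ)^(β²/4) (1/T) ∫_0^T |ζ(1/2 + δ + it)|^β F(Y(t)) dt → a(β/2) ∫ F dρ`,

`Y(t)` being the vector of the differences `log |ζ(1/2 + δ + i(t + a_j δ))| - log |ζ(1/2 + δ + it)|`; the
quotient of this integral and of the integral of `|ζ(1/2 + δ + it)|^β` tends to `∫ F dρ`. Second
part: let `c ≥ 0`, `S` a countable set of shifts, `B` a countable set of positive reals; off sets
`E(T) ⊆ [0, T]` of measure `o(T δ^(4+4c))`, on which `|ζ(1/2 + δ + it)| > δ^(-2-c)`, the same holds for all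
`β ∈ B` with `β ≤ 4` or `β ≥ 4 + 4c` and all shifts in `S`. -/
theorem result (δ : ℝ → ℝ) (hδ : Tendsto δ atTop (𝓝 0))
    (hδL : Tendsto (fun T : ℝ => δ T * Real.log T) atTop atTop) :
    (∀ β : ℝ, 0 < β → 0 < ak (β / 2)) ∧
    (∀ β : ℝ, 0 < β → β ≤ 4 → ∀ (n : ℕ) (a : Fin n → ℝ),
      ∃ ρ : ProbabilityMeasure (Fin n → ℝ), IsNormal (mean β a) (cov a) ρ ∧
        ∀ F : BoundedContinuousFunction (Fin n → ℝ) ℝ,
          Tendsto (fun T : ℝ => (2 * δ T) ^ ((β / 2) ^ 2) / T *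
            ∫ t in Set.Icc 0 T, Z (δ T) 0 t ^ β * F (Y (δ T) a t)) atTop
            (𝓝 (ak (β / 2) * ∫ y, F y ∂(ρ : Measure (Fin n → ℝ)))) ∧
          Tendsto (fun T : ℝ => (∫ t in Set.Icc 0 T, Z (δ T) 0 t ^ β * F (Y (δ T) a t)) /
            ∫ t in Set.Icc 0 T, Z (δ T) 0 t ^ β) atTop
            (𝓝 (∫ y, F y ∂(ρ : Measure (Fin n → ℝ))))) ∧
    ∀ (c : ℝ), 0 ≤ c → ∀ (S B : Set ℝ), S.Countable → B.Countable → (∀ β ∈ B, 0 < β) →
      ∃ E : ℝ → Set ℝ,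
        (∀ T, MeasurableSet (E T) ∧ E T ⊆ Set.Icc 0 T ∧ ∀ t ∈ E T, (δ T) ^ (-(2 + c)) < Z (δ T) 0 t) ∧
        Tendsto (fun T => (volume (E T)).toReal / (T * (δ T) ^ (4 + 4 * c))) atTop (𝓝 0) ∧
        ∀ β ∈ B, (β ≤ 4 ∨ 4 + 4 * c ≤ β) → ∀ (n : ℕ) (a : Fin n → ℝ), (∀ j, a j ∈ S) →
          ∃ ρ : ProbabilityMeasure (Fin n → ℝ), IsNormal (mean β a) (cov a) ρ ∧
            ∀ F : BoundedContinuousFunction (Fin n → ℝ) ℝ,
              Tendsto (fun T : ℝ => (2 * δ T) ^ ((β / 2) ^ 2) / T *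
                ∫ t in Set.Icc 0 T \ E T, Z (δ T) 0 t ^ β * F (Y (δ T) a t)) atTop
                (𝓝 (ak (β / 2) * ∫ y, F y ∂(ρ : Measure (Fin n → ℝ)))) ∧
              Tendsto (fun T : ℝ => (∫ t in Set.Icc 0 T \ E T, Z (δ T) 0 t ^ β * F (Y (δ T) a t)) /
                ∫ t in Set.Icc 0 T \ E T, Z (δ T) 0 t ^ β) atTop
                (𝓝 (∫ y, F y ∂(ρ : Measure (Fin n → ℝ)))) := by
  have hpos : ∀ β : ℝ, 0 < β → 0 < ak (β / 2) := fun β hβ =>
    Pool.Agent.H306R2.aF_pos (by positivity)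
  have hδ0 : ∀ᶠ T in atTop, 0 < δ T := by
    filter_upwards [hδL.eventually (eventually_gt_atTop 0), eventually_gt_atTop (1 : ℝ)] with T h1 h2
    exact (pos_iff_pos_of_mul_pos h1).2 (Real.log_pos h2)
  -- quotients
  have hquot : ∀ (β : ℝ), 0 < β → ∀ (n : ℕ) (a : Fin n → ℝ) (A : ℝ → Set ℝ)
      (ρ : ProbabilityMeasure (Fin n → ℝ)),
      (∀ F : BoundedContinuousFunction (Fin n → ℝ) ℝ,
          Tendsto (fun T : ℝ => (2 * δ T) ^ ((β / 2) ^ 2) / T *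
            ∫ t in A T, Z (δ T) 0 t ^ β * F (Y (δ T) a t)) atTop
            (𝓝 (ak (β / 2) * ∫ y, F y ∂(ρ : Measure (Fin n → ℝ))))) →
      ∀ F : BoundedContinuousFunction (Fin n → ℝ) ℝ,
          Tendsto (fun T : ℝ => (2 * δ T) ^ ((β / 2) ^ 2) / T *
            ∫ t in A T, Z (δ T) 0 t ^ β * F (Y (δ T) a t)) atTop
            (𝓝 (ak (β / 2) * ∫ y, F y ∂(ρ : Measure (Fin n → ℝ)))) ∧
          Tendsto (fun T : ℝ => (∫ t in A T, Z (δ T) 0 t ^ β * F (Y (δ T) a t)) /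
            ∫ t in A T, Z (δ T) 0 t ^ β) atTop
            (𝓝 (∫ y, F y ∂(ρ : Measure (Fin n → ℝ)))) := by
    intro β hβ n a A ρ h F
    refine ⟨h F, ?_⟩
    have h1 := h (BoundedContinuousFunction.const _ 1)
    simp only [BoundedContinuousFunction.const_apply, mul_one, integral_const, smul_eq_mul,
      probReal_univ] at h1
    have h2 := (h F).div h1 (hpos β hβ).ne'
    rw [mul_div_cancel_left₀ _ (hpos β hβ).ne'] at h2
    refine h2.congr' ?_
    filter_upwards [hδ0, eventually_gt_atTop (0 : ℝ)] with T h3 h4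
    simp only [Pi.div_apply]
    rw [mul_div_mul_left]
    positivity
  refine ⟨hpos, fun β hβ hβ4 n a => ?_, fun c hc S B hS hB hB0 => ?_⟩
  · obtain ⟨ρ, hρ, hF⟩ := Pool.Agent.Y753.SHL.land_full Pool.Agent.Y901.SHR.done
      Pool.Agent.Y753.SHR.star Pool.Agent.V11128.SHL.dense Pool.Agent.V11128.SHL.land hδ hδL hβ hβ4 a
    exact ⟨ρ, hρ, hquot β hβ n a _ ρ hF⟩
  · obtain ⟨E, hE, hvol, hm⟩ := Pool.Agent.Y753.SHR.land_small Pool.Agent.Y901.SHR.done
      Pool.Agent.Y753.SHR.star Pool.Agent.V11128.SHL.dense Pool.Agent.V11128.SHL.land hδ hδL hc hS hB hB0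
    refine ⟨E, hE, hvol, fun β hβ hcase n a ha => ?_⟩
    obtain ⟨ρ, hρ, hF⟩ := hm β hβ hcase n a ha
    exact ⟨ρ, hρ, hquot β (hB0 β hβ) n a _ ρ hF⟩

end Pool.Agent.Results.MP_112ba8_nt.GaussianLandscape
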