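import Mathlib
import Pool.Agent.V1126.MZ.Pkg

set_option autoImplicit false

/-!
# Moments of the short-window moments of zeta at all scales, outside a set of small proportion

For a window length `l` between `1 / log T` and `1` consider the integral
`F l t = ∫_0^l |ζ(1/2 + i(t + u))|^(2k) du` over the points `t + u` of a set `E` of almost full
proportion. Its moments of integer order `q` over `[T, T+H]` are estimated for all these scales at
once. If `q k² > 1`, in particular for every `q` and every integer `k ≥ 2`, the exact order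
`H l (log T)^(q² k² - q + 1)` is proved: it is linear in the length of the window, for all `q`, which
says that the windows with large `2k`-th moment owe it to one peak of width `1 / log T`. If
`q k² < 1` the upper bound has the order `H l^(q - (q-1) q k²) (log T)^(q k²)`.

The case `l = 1` is `MP_f9aece_nt.MomentsOfMoments`, whose set and tools are used.
-/

namespace Pool.Agent.Results.MP_112ba8_nt.MesoscopicMoments

open Filter MeasureTheory
open scoped ENNReal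

/-- **Theorem.** For every `K ≥ 0`, `N`, `θ > 0` and `ε > 0` there is a measurable set `E` of real
numbers such that `ζ(1/2 + it) ≠ 0` for `t` in `E`; for every `α < 1`, all large `T` and all
`T / (log T)^α ≤ H ≤ T` the set `E` contains at least `(1 - ε) H` of the points of `[T, T+H]`; all
integrals `F l t` below are finite; and the following holds for all integers `1 ≤ q ≤ N` and all real
`|k| ≤ K`, with constants `c, C > 0` depending on `q` and `k`. Let `F l t` be the integral of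
`|ζ(1/2 + i(t + u))|^(2k)` over the `u` in `[0,l]` with `t + u` in `E`. For every `α < 1`, all large
`T`, all `T / (log T)^α ≤ H ≤ T` and all `1 / log T ≤ l ≤ 1` the integral of `(F l t)^q` over `t` in
`[T, T+H]` is at least `c H l^q (log T)^(q k²)` and at least `c H l (log T)^(q² k² - q + 1)`. For all
large `T`, all `T^θ ≤ H ≤ T` and all `1 / log T ≤ l ≤ 1` it is at most
`C H l^(q - (q-1) q k²) (log T)^(q k²)` if `q k² < 1`, at most
`C H l (log T) (1 + log (l log T))^(q-1)` if `q k² = 1`, and at most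
`C H l (log T)^(q² k² - q + 1)` if `q k² > 1`. -/
theorem result (K θ ε : ℝ) (N : ℕ) (hK : 0 ≤ K) (hθ : 0 < θ) (hε : 0 < ε) :
    ∃ E : Set ℝ, MeasurableSet E ∧ (∀ t ∈ E, riemannZeta (1 / 2 + t * Complex.I) ≠ 0) ∧
    (∀ α : ℝ, 0 ≤ α → α < 1 → ∀ᶠ T : ℝ in atTop, ∀ H : ℝ, T / Real.log T ^ α ≤ H → H ≤ T →
      (1 - ε) * H ≤ volume.real (Set.Icc T (T + H) ∩ E)) ∧
    (∀ k t l : ℝ, l ≤ 1 →
      IntegrableOn (fun u : ℝ => ‖riemannZeta (1 / 2 + ((t + u : ℝ) : ℂ) * Complex.I)‖ ^ (2 * k))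
        {u : ℝ | u ∈ Set.Icc (0:ℝ) l ∧ t + u ∈ E}) ∧
    ∀ (q : ℕ) (k : ℝ), 1 ≤ q → q ≤ N → |k| ≤ K → ∀ F : ℝ → ℝ → ℝ,
      (∀ l t, F l t = ∫ u in {u : ℝ | u ∈ Set.Icc (0:ℝ) l ∧ t + u ∈ E},
        ‖riemannZeta (1 / 2 + ((t + u : ℝ) : ℂ) * Complex.I)‖ ^ (2 * k)) →
      ∃ c C : ℝ, 0 < c ∧ 0 < C ∧
      (∀ α : ℝ, 0 ≤ α → α < 1 → ∀ᶠ T : ℝ in atTop, ∀ H : ℝ, T / Real.log T ^ α ≤ H → H ≤ T →
        ∀ l : ℝ, 1 / Real.log T ≤ l → l ≤ 1 →
        c * H * l ^ q * Real.log T ^ (q * k ^ 2) ≤ ∫ t in Set.Icc T (T + H), F l t ^ q ∧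
        c * H * l * Real.log T ^ ((q:ℝ) ^ 2 * k ^ 2 - q + 1) ≤ ∫ t in Set.Icc T (T + H), F l t ^ q) ∧
      ∀ᶠ T : ℝ in atTop, ∀ H : ℝ, T ^ θ ≤ H → H ≤ T → ∀ l : ℝ, 1 / Real.log T ≤ l → l ≤ 1 →
        IntegrableOn (fun t => F l t ^ q) (Set.Icc T (T + H)) ∧
        (q * k ^ 2 < 1 →
          ∫ t in Set.Icc T (T + H), F l t ^ q ≤
            C * H * l ^ ((q:ℝ) - (q - 1) * (q * k ^ 2)) * Real.log T ^ (q * k ^ 2)) ∧
        (q * k ^ 2 = 1 →
          ∫ t in Set.Icc T (T + H), F l t ^ q ≤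
            C * H * l * Real.log T * (1 + Real.log (l * Real.log T)) ^ (q - 1)) ∧
        (1 < q * k ^ 2 →
          ∫ t in Set.Icc T (T + H), F l t ^ q ≤
            C * H * l * Real.log T ^ ((q:ℝ) ^ 2 * k ^ 2 - q + 1)) := by
  obtain ⟨E, c₀, C₀, mE, hc₀, hC₀, hne, hprop, hin, hlow, hup, hmj⟩ :=
    Pool.Agent.V1126.MZ.pkgl K θ ε N hK hθ hε
  refine ⟨E, mE, hne, hprop, ?_, ?_⟩
  · intro k t l hl
    refine (hin (2 * k) t).mono_set ?_
    rintro u ⟨hu, hu'⟩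
    exact ⟨⟨hu.1, hu.2.trans hl⟩, hu'⟩
  intro q k hq1 hqN hkK F hF
  obtain ⟨m, rfl⟩ : ∃ m, q = m + 1 := ⟨q - 1, by omega⟩
  have hN1 : 1 ≤ N := by omega
  have hmN : ((m + 1 : ℕ) : ℝ) ≤ N := by exact_mod_cast hqN
  have hm0 : (0:ℝ) < ((m + 1 : ℕ) : ℝ) := by positivity
  have hNK : (0:ℝ) ≤ N * K := by positivity
  have hkB : |k| ≤ N * K + K := by linarith
  set a : ℝ := ((m + 1 : ℕ) : ℝ) * k with ha
  have haB : |a| ≤ N * K + K := by
    rw [ha, abs_mul, Nat.abs_cast]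
    have : ((m + 1 : ℕ) : ℝ) * |k| ≤ N * K := mul_le_mul hmN hkK (abs_nonneg _) (Nat.cast_nonneg _)
    linarith
  have hak : a / ((m + 1 : ℕ) : ℝ) = k := by
    rw [ha]
    field_simp
  have hFG : F = fun l t => Pool.Agent.V1126.MZ.Gl E l k t := by
    funext l t
    rw [hF l t]
    rfl
  set ρ : ℝ := ((m + 1 : ℕ) : ℝ) * k ^ 2 with hρ
  have hρ2 : ((m + 1 : ℕ) : ℝ) ^ 2 * k ^ 2 - ((m + 1 : ℕ) : ℝ) + 1 = a ^ 2 - ((m + 1 : ℕ) : ℝ) + 1 := by
    rw [ha]; ring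
  have hρ0 : 0 ≤ ρ := by positivity
  rw [hFG, hρ2]
  have hupper : ∀ᶠ T : ℝ in atTop, ∀ H : ℝ, T ^ (min θ (1 / 2)) ≤ H → H ≤ T → ∀ l : ℝ, 0 < l → l ≤ 1 →
      IntegrableOn (fun t => Pool.Agent.V1126.MZ.Gl E l k t ^ (m + 1)) (Set.Icc T (T + H)) ∧
      ∫ t in Set.Icc T (T + H), Pool.Agent.V1126.MZ.Gl E l k t ^ (m + 1) ≤
        C₀ * H * l * Real.log T ^ ρ * (Pool.Agent.V1126.MZ.Il (1 / Real.log T) ρ l) ^ m := by
    filter_upwards [hup, eventually_gt_atTop (1:ℝ)] with T a1 hT1 H hH1 hH2 l hl hl1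
    have hT0 : 0 < T := by linarith
    have hL : 0 < Real.log T := Real.log_pos hT1
    have hH0 : 0 < H := lt_of_lt_of_le (Real.rpow_pos_of_pos hT0 _) hH1
    have hI := Pool.Agent.V1126.MZ.Il_pos (δ := 1 / Real.log T) (ρ := ρ) (l := l) (by positivity) hl
    exact Pool.Agent.V1126.MZ.Gl_up mE (by positivity) (m + 1) (a1 H hH1 hH2 l hl hl1 m hqN k hkK)
  have hm1 : (1:ℝ) ≤ ((m + 1 : ℕ) : ℝ) := by push_cast; linarith [(Nat.cast_nonneg m : (0:ℝ) ≤ m)]
  set c₁ : ℝ := c₀ ^ (m + 1) with hc₁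
  set c₂ : ℝ := c₀ ^ (2 * (m + 1)) / (2 * C₀) ^ (2 * (m + 1) - 1) with hc₂
  have hc₁0 : 0 < c₁ := by positivity
  have hc₂0 : 0 < c₂ := by positivity
  refine ⟨min c₁ c₂, C₀ * (|4 / (1 - ρ)| ^ m + 4 ^ m + |2 / (ρ - 1)| ^ m), lt_min hc₁0 hc₂0, by positivity, ?_, ?_⟩
  · intro α h0 h1
    filter_upwards [hlow α h0 h1, hup, hupper, hmj, eventually_gt_atTop (1:ℝ),
      Real.tendsto_log_atTop.eventually_ge_atTop 1] with T a1 a2 a3 a4 hT1 hL1 H hH1 hH2 l hl0 hl1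
    have hT0 : 0 < T := by linarith
    have hL : 0 < Real.log T := Real.log_pos hT1
    have hl : 0 < l := lt_of_lt_of_le (by positivity) hl0
    obtain ⟨hTθ, b1⟩ := a1 H hH1 hH2
    have hH0 : 0 < H := lt_of_lt_of_le (Real.rpow_pos_of_pos hT0 _) hTθ
    have hfin0 : ∫⁻ t in Set.Icc T (T + H), (∫⁻ u in Set.Icc (0:ℝ) l, Pool.Agent.V11104.MM.zk E k (t + u)) ≠ ⊤ := by
      have h3 := a2 H hTθ hH2 l hl hl1 0 (by omega) k hkK
      simp only [zero_add, pow_one] at h3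
      exact (h3.trans_lt ENNReal.ofReal_lt_top).ne
    have hfin : ∫⁻ t in Set.Icc T (T + H), (∫⁻ u in Set.Icc (0:ℝ) l,
        Pool.Agent.V11104.MM.zk E k (t + u)) ^ (m + 1) ≠ ⊤ :=
      ((a2 H hTθ hH2 l hl hl1 m hqN k hkK).trans_lt ENNReal.ofReal_lt_top).ne
    have hi := (a3 H hTθ hH2 l hl hl1).1
    constructor
    · have hfinal := Pool.Agent.V1126.MZ.Gl_low mE (Y := c₀ * Real.log T ^ (k ^ 2)) hl hl1 (by positivity) hH0 (m + 1)
        hfin0 hi (b1 k hkB)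
      refine le_trans ?_ hfinal
      have e : (l * (c₀ * Real.log T ^ (k ^ 2))) ^ (m + 1) * H = c₁ * H * l ^ (m + 1) * Real.log T ^ ρ := by
        rw [mul_pow, mul_pow, ← Real.rpow_natCast (Real.log T ^ (k ^ 2)), ← Real.rpow_mul hL.le, hρ,
          mul_comm (k ^ 2) ((m + 1 : ℕ) : ℝ), hc₁]
        ring
      rw [e]
      have : min c₁ c₂ ≤ c₁ := min_le_left _ _
      gcongr
    · have hr0 : (0:ℝ) < 2 * ((m + 1 : ℕ) : ℝ) - 1 := by linarith
      have hr1 : ((m + 1 : ℕ) : ℝ) / (2 * ((m + 1 : ℕ) : ℝ) - 1) ≤ 1 := by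
        rw [div_le_one hr0]
        linarith
      obtain ⟨Fm, hFm, f1, f2⟩ := a4 H hTθ hH2 a haB
      have hsm := Pool.Agent.V1126.MZ.small_l hFm (r := ((m + 1 : ℕ) : ℝ) / (2 * ((m + 1 : ℕ) : ℝ) - 1))
        hT0 hL1 hC₀.le hH0 hH2 hl0 hl1 (by positivity) hr1 f1 f2
      have hfinal := Pool.Agent.V1126.MZ.sup_lowl mE hne (q := m + 1) (a := a) (C := 2 * C₀) (by omega) hL hH0 hc₀
        (by positivity) hl hl1 (b1 a haB) hsm (by rw [hak]; exact hi) (by rw [hak]; exact hfin)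
      rw [hak] at hfinal
      refine le_trans ?_ hfinal
      have : min c₁ c₂ ≤ c₂ := min_le_right _ _
      have hLp : 0 ≤ Real.log T ^ (a ^ 2 - ((m + 1 : ℕ) : ℝ) + 1) := Real.rpow_nonneg hL.le _
      gcongr
  · filter_upwards [hupper, eventually_gt_atTop (1:ℝ), Real.tendsto_log_atTop.eventually_ge_atTop 2] with
      T a1 hT1 hL2 H hH1 hH2 l hl0 hl1
    have hT0 : 0 < T := by linarith
    set L := Real.log T with hLd
    have hL : 0 < L := by linarith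
    have hl : 0 < l := lt_of_lt_of_le (by positivity) hl0
    have hH1' : T ^ (min θ (1 / 2)) ≤ H := (Real.rpow_le_rpow_of_exponent_le hT1.le (min_le_left _ _)).trans hH1
    have hH0 : 0 < H := lt_of_lt_of_le (Real.rpow_pos_of_pos hT0 _) hH1
    obtain ⟨b1, b2⟩ := a1 H hH1' hH2 l hl hl1
    have hδ0 : 0 < 1 / L := by positivity
    have hI := Pool.Agent.V1126.MZ.Il_pos (δ := 1 / L) (ρ := ρ) (l := l) hδ0 hl
    have p1 : 0 ≤ |4 / (1 - ρ)| ^ m := by positivity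
    have p2 : (0:ℝ) ≤ 4 ^ m := by positivity
    have p3 : 0 ≤ |2 / (ρ - 1)| ^ m := by positivity
    refine ⟨b1, fun h1 => ?_, fun h1 => ?_, fun h1 => ?_⟩
    · refine b2.trans ?_
      have h2 := Pool.Agent.V1126.MZ.Il_lt hδ0 hl0 hρ0 h1
      have hlp : 0 ≤ l ^ (1 - ρ) := Real.rpow_nonneg hl.le _
      have h3 : (Pool.Agent.V1126.MZ.Il (1 / L) ρ l) ^ m ≤ |4 / (1 - ρ)| ^ m * (l ^ (1 - ρ)) ^ m := by
        rw [← mul_pow]
        refine pow_le_pow_left₀ hI (h2.trans ?_) m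
        exact mul_le_mul_of_nonneg_right (le_abs_self _) hlp
      have e1 : l * (l ^ (1 - ρ)) ^ m = l ^ (((m + 1 : ℕ) : ℝ) - (((m + 1 : ℕ) : ℝ) - 1) * ρ) := by
        rw [← Real.rpow_natCast (l ^ (1 - ρ)), ← Real.rpow_mul hl.le]
        nth_rewrite 1 [← Real.rpow_one l]
        rw [← Real.rpow_add hl]
        congr 1
        push_cast
        ring
      calc C₀ * H * l * L ^ ρ * (Pool.Agent.V1126.MZ.Il (1 / L) ρ l) ^ m ≤
            C₀ * H * l * L ^ ρ * ((|4 / (1 - ρ)| ^ m + 4 ^ m + |2 / (ρ - 1)| ^ m) * (l ^ (1 - ρ)) ^ m) := by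
            refine mul_le_mul_of_nonneg_left (h3.trans ?_) (by positivity)
            refine mul_le_mul_of_nonneg_right (by linarith) (by positivity)
        _ = C₀ * (|4 / (1 - ρ)| ^ m + 4 ^ m + |2 / (ρ - 1)| ^ m) * H * (l * (l ^ (1 - ρ)) ^ m) * L ^ ρ := by ring
        _ = _ := by rw [e1]
    · refine b2.trans ?_
      have hlL : 1 ≤ l * L := by
        rw [div_le_iff₀ hL] at hl0
        exact hl0
      have hll : 0 ≤ Real.log (l * L) := Real.log_nonneg hlL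
      have h2 : Pool.Agent.V1126.MZ.Il (1 / L) ρ l ≤ 4 * (1 + Real.log (l * L)) := by
        rw [h1, Pool.Agent.V1126.MZ.Il_eq hδ0 hl]
        have e : (1 / L + l) / (1 / L) = 1 + l * L := by field_simp
        rw [e]
        have h3 : Real.log (1 + l * L) ≤ Real.log (2 * (l * L)) := Real.log_le_log (by linarith) (by linarith)
        rw [Real.log_mul (by norm_num) (by positivity)] at h3
        have h4 := Real.log_two_lt_d9
        linarith
      have h3 : (Pool.Agent.V1126.MZ.Il (1 / L) ρ l) ^ m ≤ 4 ^ m * (1 + Real.log (l * L)) ^ m := by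
        rw [← mul_pow]
        exact pow_le_pow_left₀ hI h2 m
      have hlm : 0 ≤ (1 + Real.log (l * L)) ^ m := pow_nonneg (by linarith) m
      rw [Nat.add_sub_cancel]
      have e4 : L ^ ρ = L := by rw [h1, Real.rpow_one]
      rw [e4]
      calc C₀ * H * l * L * (Pool.Agent.V1126.MZ.Il (1 / L) ρ l) ^ m ≤
            C₀ * H * l * L * ((|4 / (1 - ρ)| ^ m + 4 ^ m + |2 / (ρ - 1)| ^ m) * (1 + Real.log (l * L)) ^ m) := by
            refine mul_le_mul_of_nonneg_left (h3.trans ?_) (by positivity)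
            refine mul_le_mul_of_nonneg_right ?_ hlm
            linarith
        _ = _ := by ring
    · refine b2.trans ?_
      have h2 := Pool.Agent.V1126.MZ.Il_gt hδ0 hl h1
      rw [one_div_one_div] at h2
      have h3 : (Pool.Agent.V1126.MZ.Il (1 / L) ρ l) ^ m ≤ |2 / (ρ - 1)| ^ m * (L ^ (ρ - 1)) ^ m := by
        rw [← mul_pow]
        refine pow_le_pow_left₀ hI (h2.trans ?_) m
        exact mul_le_mul_of_nonneg_right (le_abs_self _) (Real.rpow_nonneg hL.le _)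
      have e1 : L ^ ρ * (L ^ (ρ - 1)) ^ m = L ^ (a ^ 2 - ((m + 1 : ℕ) : ℝ) + 1) := by
        rw [← Real.rpow_natCast (L ^ (ρ - 1)), ← Real.rpow_mul hL.le, ← Real.rpow_add hL]
        congr 1
        rw [hρ, ha]
        push_cast
        ring
      have hLm : 0 ≤ (L ^ (ρ - 1)) ^ m := by positivity
      calc C₀ * H * l * L ^ ρ * (Pool.Agent.V1126.MZ.Il (1 / L) ρ l) ^ m ≤
            C₀ * H * l * L ^ ρ * ((|4 / (1 - ρ)| ^ m + 4 ^ m + |2 / (ρ - 1)| ^ m) * (L ^ (ρ - 1)) ^ m) := by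
            refine mul_le_mul_of_nonneg_left (h3.trans ?_) (by positivity)
            refine mul_le_mul_of_nonneg_right (by linarith) hLm
        _ = C₀ * (|4 / (1 - ρ)| ^ m + 4 ^ m + |2 / (ρ - 1)| ^ m) * H * l * (L ^ ρ * (L ^ (ρ - 1)) ^ m) := by ring
        _ = _ := by rw [e1]

end Pool.Agent.Results.MP_112ba8_nt.MesoscopicMoments
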