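import Mathlib
import Pool.Agent.Results.MP_112ba8_nt.LocalLawAndMoments
import Pool.Agent.V11104.SM.Main
import Pool.Agent.V11104.SM.Shift

set_option autoImplicit false

/-!
# Shifted moments of the Riemann zeta function outside a set of small proportion

The conjectured order of the shifted moments
`∫_T^{T+H} ∏ |ζ(1/2 + i(t + h_l))|^{2 k_l} dt` of the Riemann zeta function is
`H ∏_{l, l'} |ζ(1 + 1/log T + i(h_l - h_l'))|^{k_l k_l'}`; the factors with `l = l'` give
`(log T)^{k_l²}`, and for one shift this is the order `H (log T)^{k²}` of the `2k`-th moment. An upper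
bound of this order is known under the Riemann hypothesis. Here it is proved unconditionally if a set
of `t` of small proportion is left out: for all real exponents of either sign, all shifts
`|h_l| ≤ T/2`, also depending on `T`, and all windows `T^θ ≤ H ≤ T`. The exceptional set does not
depend on the shifts and the exponents: there is one set `E`, which contains almost all points of
every interval, and the integral runs over the `t` for which all points `t + h_l` lie in `E`. On `E`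
zeta has no zeros, so that ratios and negative moments are included.

The proof takes the set of the starting file `LocalLawAndMoments`, on which `log |ζ(1/2+it)|` is up
to a constant the real part of the sum of `p^{-1/2-it}` over the primes `p ≤ t^δ`, and leaves out the
points at which one of the blocks of this sum is large. On the rest the product of the shifted powers
is at most a constant times the square of a product of truncated exponentials of the twisted block
sums `∑ (∑_l k_l p^{-i h_l}) p^{-1/2-it}`, whose mean square in short intervals is estimated.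
-/

namespace Pool.Agent.Results.MP_112ba8_nt.ShiftedMoments

open Filter MeasureTheory

/-- `x^(1 - α)` beats powers of the logarithm -/
lemma half_le (α : ℝ) : ∀ᶠ T : ℝ in atTop, T ^ (1 / 2 : ℝ) ≤ T / Real.log T ^ α := by
  have h := (isLittleO_log_rpow_rpow_atTop α (show (0:ℝ) < 1 / 2 by norm_num)).bound (show (0:ℝ) < 1 by norm_num)
  filter_upwards [h, eventually_gt_atTop (1:ℝ), Real.tendsto_log_atTop.eventually_gt_atTop 0] with T h1 hT hL
  have hT0 : 0 < T := by linarith
  have hp : 0 < Real.log T ^ α := Real.rpow_pos_of_pos hL α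
  rw [Real.norm_of_nonneg hp.le, Real.norm_of_nonneg (by positivity), one_mul] at h1
  rw [le_div_iff₀ hp]
  calc T ^ (1 / 2 : ℝ) * Real.log T ^ α ≤ T ^ (1 / 2 : ℝ) * T ^ (1 / 2 : ℝ) :=
        mul_le_mul_of_nonneg_left h1 (by positivity)
    _ = T := by rw [← Real.rpow_add hT0]; norm_num

/-- **Theorem.** For every number `m` of shifts, all `B ≥ 0`, `θ > 0` and `ε > 0` there are a
measurable set `E` of real numbers and a constant `C` such that `ζ(1/2 + it) ≠ 0` for `t` in `E`, and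
(1) for every `α < 1`, all large `T`, all `T / (log T)^α ≤ H ≤ T` and all shifts `|h_l| ≤ T/2`, the
`t` in `[T, T+H]` for which all `t + h_l` lie in `E` have measure at least `(1 - ε) H`;
(2) for all large `T`, all `T^θ ≤ H ≤ T`, all shifts `|h_l| ≤ T/2` and all real `|k_l| ≤ B`,
the integral of `∏ |ζ(1/2 + i(t + h_l))|^{2 k_l}` over these `t` is at most
`C H ∏_{l, l'} |ζ(1 + 1/log T + i(h_l - h_l'))|^{k_l k_l'}`. -/
theorem result (m : ℕ) (B θ ε : ℝ) (hB : 0 ≤ B) (hθ : 0 < θ) (hε : 0 < ε) :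
    ∃ (E : Set ℝ) (C : ℝ), MeasurableSet E ∧ 0 < C ∧
    (∀ t ∈ E, riemannZeta (1 / 2 + t * Complex.I) ≠ 0) ∧
    (∀ α : ℝ, 0 ≤ α → α < 1 → ∀ᶠ T : ℝ in atTop, ∀ H : ℝ, T / Real.log T ^ α ≤ H → H ≤ T →
      ∀ h : Fin m → ℝ, (∀ l, |h l| ≤ T / 2) →
        (1 - ε) * H ≤ volume.real {t : ℝ | t ∈ Set.Icc T (T + H) ∧ ∀ l, t + h l ∈ E}) ∧
    ∀ᶠ T : ℝ in atTop, ∀ H : ℝ, T ^ θ ≤ H → H ≤ T → ∀ h k : Fin m → ℝ,
      (∀ l, |h l| ≤ T / 2) → (∀ l, |k l| ≤ B) →
      IntegrableOn (fun t : ℝ => ∏ l, ‖riemannZeta (1 / 2 + ((t + h l : ℝ) : ℂ) * Complex.I)‖ ^ (2 * k l))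
        {t : ℝ | t ∈ Set.Icc T (T + H) ∧ ∀ l, t + h l ∈ E} ∧
      ∫ t in {t : ℝ | t ∈ Set.Icc T (T + H) ∧ ∀ l, t + h l ∈ E},
          ∏ l, ‖riemannZeta (1 / 2 + ((t + h l : ℝ) : ℂ) * Complex.I)‖ ^ (2 * k l) ≤
        C * H * ∏ l, ∏ l',
          ‖riemannZeta (1 + 1 / Real.log T + ((h l - h l' : ℝ) : ℂ) * Complex.I)‖ ^ (k l * k l') := by
  obtain ⟨c, hc0, hc⟩ := Pool.Agent.W184.NZ.ranges
  have hJex : ∀ y : ℝ, ∃ J : ℕ, 144 ≤ y → Pool.Agent.W184.NZ.Rg c J (Pool.Agent.W184.NZ.II y)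
      (Pool.Agent.W184.NZ.bb y) ∧ Pool.Agent.W184.NZ.bb y J < 144 := by
    intro y
    by_cases hy : 144 ≤ y
    · obtain ⟨J, h1, _, h2, _⟩ := hc y hy
      exact ⟨J, fun _ => ⟨h1, h2⟩⟩
    · exact ⟨0, fun h => absurd h hy⟩
  choose J hJ using hJex
  obtain ⟨Ct, hCt0, hCt⟩ := Pool.Agent.V11104.SM.tail_sum
  -- the parameters
  set η : ℝ := ε / (m + 1) with hη
  have hη0 : 0 < η := by positivity
  obtain ⟨n, hn⟩ := exists_nat_ge (m * B + 1)
  have hn1 : 1 ≤ n := by
    have : (1:ℝ) ≤ n := by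
      have : 0 ≤ m * B := by positivity
      linarith
    exact_mod_cast this
  obtain ⟨Rs, hRs1, hRsc, hRsη⟩ : ∃ Rs : ℕ, 1 ≤ Rs ∧ 2 * c ≤ 2 * Rs ∧ 22 * (1 / 4 : ℝ) ^ Rs ≤ η / 4 := by
    have t1 : Tendsto (fun r : ℕ => 22 * (1 / 4 : ℝ) ^ r) atTop (nhds (22 * 0)) :=
      (tendsto_pow_atTop_nhds_zero_of_lt_one (by norm_num) (by norm_num)).const_mul _
    rw [mul_zero] at t1
    obtain ⟨r, h1, h2, h3⟩ := ((eventually_ge_atTop 1).and
      ((tendsto_natCast_atTop_atTop.eventually_ge_atTop c).and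
        (t1.eventually (gt_mem_nhds (show (0:ℝ) < η / 4 by positivity))))).exists
    exact ⟨r, h1, by linarith, h3.le⟩
  obtain ⟨R, hR0, hRη⟩ : ∃ R : ℝ, 0 < R ∧ 16 * Ct / R ^ 2 ≤ η / 4 := by
    refine ⟨64 * Ct / η + 1, by positivity, ?_⟩
    rw [div_le_iff₀ (by positivity)]
    have h1 : 64 * Ct / η ≤ (64 * Ct / η + 1) ^ 2 := by
      have : 0 ≤ 64 * Ct / η := by positivity
      nlinarith
    have h2 : 16 * Ct = η / 4 * (64 * Ct / η) := by field_simp; ring
    rw [h2]
    exact mul_le_mul_of_nonneg_left h1 (by positivity)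
  have hn1' : (1:ℝ) ≤ n := by exact_mod_cast hn1
  set δ₀ : ℝ := min 1 (min (1 / (16 * (Rs + 1))) (θ / (108 * n * (Rs + 1)))) with hδ₀
  have hδ₀0 : 0 < δ₀ := by
    rw [hδ₀]
    refine lt_min one_pos (lt_min (by positivity) (by positivity))
  obtain ⟨E, c', C', W, δ, mE, _, _, hW, hδ, hδδ, hE, hEv⟩ :=
    Pool.Agent.Results.MP_112ba8_nt.LocalLawAndMoments.result B (η / 4) δ₀ hB (by positivity) hδ₀0
  have d1 : δ ≤ 1 := hδδ.trans (min_le_left _ _)
  have d2 : 16 * (Rs + 1) * δ ≤ 1 := by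
    have h1 := hδδ.trans ((min_le_right _ _).trans (min_le_left _ _))
    rw [le_div_iff₀ (by positivity)] at h1
    linarith
  have d3 : 108 * n * (Rs + 1) * δ ≤ θ := by
    have h1 := hδδ.trans ((min_le_right _ _).trans (min_le_right _ _))
    rw [le_div_iff₀ (by positivity)] at h1
    linarith
  set S := Pool.Agent.V11104.SM.SG J Rs R δ with hS
  have mS : MeasurableSet S := Pool.Agent.V11104.SM.SG_measurable J Rs R δ
  have hSm := Pool.Agent.V11104.SM.SG_small (fun y hy => (hJ y hy).1) hRs1 hRsc hR0 hδ d2 (hCt δ hδ)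
  set E' : Set ℝ := E ∩ Set.Ici 1 ∩ S with hE'
  have mE' : MeasurableSet E' := (mE.inter measurableSet_Ici).inter mS
  obtain ⟨C, hC, hup⟩ := Pool.Agent.V11104.SM.upper (m := m) hJ hn1 hRs1 (B := B) (by linarith) hR0 hδ d1 d3 hW.le
    mE' (fun j t ht h1 h2 => hE j t ht.1.1 h1 h2) (fun t ht => ht.2)
  refine ⟨E', C, mE', hC, ?_, ?_, ?_⟩
  · intro t ht
    obtain ⟨j, hj, hj'⟩ := exists_nat_pow_near (show (1:ℝ) ≤ t from ht.1.2) (by norm_num : (1:ℝ) < 2)
    exact (hE j t ht.1.1 hj hj').1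
  · have key : ∀ α : ℝ, 0 ≤ α → α < 1 → ∀ᶠ T : ℝ in atTop, ∀ H : ℝ, T / Real.log T ^ α ≤ H → H ≤ T →
        volume.real (Set.Icc T (T + H) ∩ E'ᶜ) ≤ η * H := by
      intro α h0 h1
      filter_upwards [hEv α h0 h1, hSm, half_le α, eventually_ge_atTop (1:ℝ)] with T a1 a2 a3 hT1 H hH1 hH2
      have hH0 : 0 ≤ H := le_trans (by positivity) (a3.trans hH1)
      have b1 := (a1 H hH1 hH2).1
      have b2 := a2 H (a3.trans hH1) hH2
      have e1 : volume.real (Set.Icc T (T + H)) = H := by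
        rw [Real.volume_real_Icc_of_le (by linarith)]; ring
      have e2 := measureReal_inter_add_sdiff (μ := volume) (s := Set.Icc T (T + H)) mE (by
        rw [Real.volume_Icc]; exact ENNReal.ofReal_ne_top)
      rw [Set.inter_comm (Set.Icc T (T + H)) E, e1] at e2
      have b3 : volume.real (Set.Icc T (T + H) \ E) ≤ η / 4 * H := by linarith
      have hsub : Set.Icc T (T + H) ∩ E'ᶜ ⊆ (Set.Icc T (T + H) \ E) ∪ (Set.Icc T (T + H) ∩ Sᶜ) := by
        rintro t ⟨ht, htE⟩
        by_cases h2 : t ∈ E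
        · right
          refine ⟨ht, fun h3 => htE ⟨⟨h2, ?_⟩, h3⟩⟩
          exact hT1.trans ht.1
        · exact Or.inl ⟨ht, h2⟩
      have hf : volume ((Set.Icc T (T + H) \ E) ∪ (Set.Icc T (T + H) ∩ Sᶜ)) ≠ ⊤ :=
        measure_ne_top_of_subset (Set.union_subset Set.sdiff_subset Set.inter_subset_left)
          (by rw [Real.volume_Icc]; exact ENNReal.ofReal_ne_top : volume (Set.Icc T (T + H)) ≠ ⊤)
      have b4 := (measureReal_mono (μ := volume) hsub hf).trans (measureReal_union_le _ _)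
      have b5 : H * (22 * (1 / 4) ^ Rs + 16 * Ct / R ^ 2) ≤ H * (η / 4 + η / 4) :=
        mul_le_mul_of_nonneg_left (by linarith) hH0
      have : 0 ≤ η * H := by positivity
      linarith
    have hsh := Pool.Agent.V11104.SM.shift_meas key m
    intro α h0 h1
    filter_upwards [hsh α h0 h1, half_le α, eventually_ge_atTop (1:ℝ)] with T a1 a3 hT1 H hH1 hH2 h hh
    have hH0 : 0 ≤ H := le_trans (by positivity) (a3.trans hH1)
    refine le_trans ?_ (a1 H hH1 hH2 h hh)
    refine mul_le_mul_of_nonneg_right ?_ hH0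
    have : (m:ℝ) * η ≤ ε := by
      rw [hη, mul_div_assoc', div_le_iff₀ (by positivity)]
      nlinarith
    linarith
  · exact hup

end Pool.Agent.Results.MP_112ba8_nt.ShiftedMoments
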