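import Pool.Agent.Y753.SHR.R18
import Pool.Agent.Y753.NL.Tilt

/-!
# The law of zeta near the critical line with respect to the weights of all the moments, twisted

Let `δ(T) → 0`, `δ(T) log T → ∞` and `c ≥ 0`. On the line `Re s = 1/2 + δ` the moments of every
order `2s`, `s ≤ 2` or `s ≥ 2 + 2c` (in particular, for `c ≤ 1/2`, all the integers `s = k ≥ 1`), are
computed off a set of measure `o(δ^(4+4c) T)` where `|ζ| > δ^(-2-c)`, together with the law of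
`log |ζ|` with respect to the weight `|ζ|^(2s)` and with the twists `(k/h)^(it)`.

Source: the theorems `tilt_small` (`Pool.Agent.Y753.SHR.R18`) and `tilt` (`Pool.Agent.Y753.NL.Tilt`)
of the starting library, which no starting result states.
-/

set_option autoImplicit false

namespace Pool.Agent.Results.MP_112ba8_nt.WeightedTwistedLaw

open Filter MeasureTheory Topology

/-- The coefficient `s (s + 1) ⋯ (s + m - 1) / m!` of `x^m` in `(1 - x)^(-s)`; for a positive integer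
`s` it is the binomial coefficient of `m + s - 1` and `m`. -/
noncomputable def ds (s : ℝ) (m : ℕ) : ℝ := ∏ i ∈ Finset.range m, (s + i) / ((i : ℝ) + 1)

/-- The arithmetic factor `a(s) = ∏_p (1 - 1/p)^(s²) ∑_m ds(m)² p^(-m)`. -/
noncomputable def ak (s : ℝ) : ℝ :=
  ∏' p : Nat.Primes, ((1 - 1 / (p : ℝ)) ^ (s ^ 2) * ∑' m : ℕ, ds s m ^ 2 * (1 / (p : ℝ)) ^ m)

/-- The local factor of the twist at a prime `p` with `p^c` dividing `h k` exactly:
`p^(c/2) (∑_i ds(i) ds(i+c) p^(-i-c)) / (∑_i ds(i)² p^(-i))`. -/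
noncomputable def localFactor (s : ℝ) (p c : ℕ) : ℝ :=
  Real.sqrt p ^ c * (∑' i : ℕ, ds s i * ds s (i + c) * (1 / (p:ℝ)) ^ (i + c)) /
    ∑' i : ℕ, ds s i ^ 2 * (1 / (p:ℝ)) ^ i

/-- The factor of the twist `(k/h)^(it)`; it is `1` for `h = k = 1`. -/
noncomputable def twistFactor (s : ℝ) (h k : ℕ) : ℝ :=
  ∏ p ∈ (h * k).primeFactors, localFactor s p ((h * k).factorization p)

/-- `|ζ(1/2 + δ + it)|`. -/
noncomputable def Z (δ t : ℝ) : ℝ := ‖riemannZeta (((1 / 2 + δ : ℝ) : ℂ) + t * Complex.I)‖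

/-- `log |ζ|` minus `s log (1/(2δ))`, divided by `√((1/2) log (1/(2δ)))`. -/
noncomputable def N (s δ t : ℝ) : ℝ :=
  (Real.log (Z δ t) - s * Real.log (1 / (2 * δ))) / Real.sqrt (Real.log (1 / (2 * δ)) / 2)

/-- `(k/h)^(it)`. -/
noncomputable def twist (h k : ℕ) (t : ℝ) : ℂ :=
  Complex.exp (((Real.log k - Real.log h : ℝ) : ℂ) * Complex.I * t)

/-- Let `δ(T) → 0` and `δ(T) log T → ∞`. First part: for every `c ≥ 0` there are sets
`E(T) ⊆ [0, T]` of measure `o(δ^(4+4c) T)` on which `|ζ(1/2 + δ + it)| > δ^(-2-c)`, such that for all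
real `s > 0` with `s ≤ 2` or `s ≥ 2 + 2c`, all coprime `h, k ≥ 1` and all bounded continuous `F`

`(2δ)^(s²) (1/T) ∫_{[0,T] \ E(T)} |ζ|^(2s) F(N) (k/h)^(it) dt → a(s) ν(s; h, k) ∫ F dγ`,

where `ζ = ζ(1/2 + δ + it)`, `N = (log |ζ| - s log (1/(2δ))) / √((1/2) log (1/(2δ)))`, `γ` is the
standard normal law and `ν` the factor of the twist. Second part: for `0 < s < 2` the quotient of the
complete integrals over `[0, T]` of `|ζ|^(2s) F(N) (k/h)^(it)` and of `|ζ|^(2s)` tends to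
`ν(s; h, k) ∫ F dγ`. -/
theorem result (δ : ℝ → ℝ) (hδ : Tendsto δ atTop (𝓝 0))
    (hδL : Tendsto (fun T : ℝ => δ T * Real.log T) atTop atTop) :
    (∀ c : ℝ, 0 ≤ c → ∃ E : ℝ → Set ℝ,
      (∀ T, MeasurableSet (E T) ∧ E T ⊆ Set.Icc 0 T ∧ ∀ t ∈ E T, (δ T) ^ (-(2 + c)) < Z (δ T) t) ∧
      Tendsto (fun T => (volume (E T)).toReal / (T * (δ T) ^ (4 + 4 * c))) atTop (𝓝 0) ∧
      ∀ s : ℝ, 0 < s → (s ≤ 2 ∨ 2 + 2 * c ≤ s) → 0 < ak s ∧
        ∀ h k : ℕ, h ≠ 0 → k ≠ 0 → h.Coprime k → ∀ F : BoundedContinuousFunction ℝ ℝ,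
          Tendsto (fun T : ℝ => (((2 * δ T) ^ (s ^ 2) / T : ℝ) : ℂ) *
            ∫ t in Set.Icc 0 T \ E T, ((Z (δ T) t ^ (2 * s) * F (N s (δ T) t) : ℝ) : ℂ) *
              twist h k t) atTop
            (𝓝 ((ak s * (twistFactor s h k *
              ∫ x, F x ∂(ProbabilityTheory.gaussianReal 0 1)) : ℝ) : ℂ))) ∧
    ∀ s : ℝ, 0 < s → s < 2 → ∀ h k : ℕ, h ≠ 0 → k ≠ 0 → h.Coprime k →
      ∀ F : BoundedContinuousFunction ℝ ℝ,
        Tendsto (fun T : ℝ => (∫ t in (0:ℝ)..T,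
          ((Z (δ T) t ^ (2 * s) * F (N s (δ T) t) : ℝ) : ℂ) * twist h k t) /
            ((∫ t in (0:ℝ)..T, Z (δ T) t ^ (2 * s) : ℝ) : ℂ)) atTop
          (𝓝 ((twistFactor s h k * ∫ x, F x ∂(ProbabilityTheory.gaussianReal 0 1) : ℝ) : ℂ)) := by
  have hzn : ∀ (d t : ℝ), Pool.Agent.W184.zn (1 / 2 + d) t = Z d t := fun _ _ => rfl
  refine ⟨fun c hc => ?_, fun s hs hs2 h k hh hk hhk F =>
    Pool.Agent.Y753.NL.tilt hs hs2 hh hk hhk hδ hδL F⟩
  obtain ⟨E, hE, hvol, hm⟩ := Pool.Agent.Y753.SHR.tilt_small hδ hδL hc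
  refine ⟨E, fun T => ⟨(hE T).1, (hE T).2.1, fun t ht => ?_⟩, hvol, fun s hs hcase =>
    ⟨Pool.Agent.H306R2.aF_pos hs, fun h k hh hk hhk F => hm s hs ?_ h k hh hk hhk F⟩⟩
  · have h1 := (hE T).2.2 t ht
    rw [← Pool.Agent.Y753.SHR.zn_za] at h1
    exact h1
  · rcases hcase with h | h
    · left; exact h
    · right; linarith

end Pool.Agent.Results.MP_112ba8_nt.WeightedTwistedLaw
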